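import Pool.Agent.Helper187.CC.Stmts

/-! Task N3r of the project CYCLE of helper187 (MP_240aa8_pr, S19209). -/

set_option autoImplicit false
open Finset

namespace Pool.Agent.H393R3.CC

open H187CC

variable {A : Type}

lemma ind_true {p : Prop} (h : p) : ind p = 1 := by unfold ind; rw [if_pos h]
lemma ind_false {p : Prop} (h : ¬ p) : ind p = 0 := by unfold ind; rw [if_neg h]

lemma vspl_zero (w : List A) : vspl (fun _ _ _ => (0 : ℝ)) w = 0 := by
  induction w with
  | nil => rfl
  | cons a w ih => rw [vspl_cons, ih]; ring

/-- two proper words whose concatenation is improper -/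
lemma last_eq_head {p s : List A} (hp : Proper p) (hs : Proper s) (h : ¬ Proper (p ++ s)) :
    p.getLast? = s.head? := by
  induction p with
  | nil => exact absurd hs h
  | cons a p ih =>
    cases p with
    | nil =>
      cases s with
      | nil => exact absurd trivial h
      | cons b s =>
        by_cases hab : a = b
        · subst hab; simp
        · exact absurd ⟨hab, hs⟩ h
    | cons b p =>
      have h1 : ¬ Proper ((b :: p) ++ s) := fun h2 => h ⟨hp.1, h2⟩
      have h3 := ih hp.2 h1
      rw [List.getLast?_cons_cons]
      exact h3

/-- vanishing of a marked sum through its cut form -/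
lemma cut_zero (c : A) : ∀ (w : List A) (l : Option A) (G : List A → List A → ℝ),
    (∀ p s, w = p ++ s →
      G p s * (ind ((p.getLast?.or l) = some c) - ind (s.head? = some c)) = 0) →
    vspl (fun u a v => ind (a = c) * (G (u ++ [a]) v - G u (a :: v))) w +
      ind (l = some c) * G [] w = 0 := by
  intro w
  induction w with
  | nil =>
    intro l G h
    have h1 := h [] [] rfl
    have h2 : ind ((none : Option A) = some c) = 0 := ind_false (by simp)
    simp only [List.getLast?_nil, Option.none_or, List.head?_nil] at h1
    rw [h2] at h1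
    rw [vspl_nil]
    linarith
  | cons a w ih =>
    intro l G h
    have h1 := ih (some a) (fun p s => G (a :: p) s) (by
      intro p s hps
      have h2 := h (a :: p) s (by rw [hps]; rfl)
      have h3 : ((a :: p).getLast?.or l) = (p.getLast?.or (some a)) := by
        rw [List.getLast?_cons]
        cases hq : p.getLast? with
        | none => simp
        | some b => simp
      rw [h3] at h2
      exact h2)
    have h2 := h [] (a :: w) rfl
    simp only [List.getLast?_nil, Option.none_or, List.head?_cons] at h2
    have h3 : ind ((some a : Option A) = some c) = ind (a = c) := by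
      by_cases hac : a = c
      · rw [ind_true hac, ind_true (by rw [hac])]
      · rw [ind_false hac, ind_false (by simpa using hac)]
    rw [h3] at h1 h2
    rw [vspl_cons]
    simp only [List.nil_append, List.cons_append] at h1 ⊢
    linear_combination h1 + h2

/-- the marked summand -/
noncomputable def V (t : ℝ) (c : A) (u : List A) (a : A) (v : List A) : ℝ :=
  ind (a = c) * (t ^ (u.length + 1) * (pi' t (u ++ [a]) * phi t v)
      - t ^ u.length * (pi' t u * phi t (a :: v)))

/-- the summand of `TaskSC` -/
noncomputable def SC (t : ℝ) (c : A) (u : List A) (a : A) (v : List A) : ℝ :=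
  ind (a = c) * (phi t (u ++ [a]) * phi t v - phi t u * phi t (a :: v))

/-- boundary term -/
noncomputable def EE (t : ℝ) (c : A) : List A → A → List A → ℝ
  | [], a, v => ind (a = c) * ((1 - t ^ (v.length + 2)) * (t ^ v.length * pi' t (a :: v)))
  | _ :: _, _, _ => 0

lemma improper_zero (t : ℝ) (c : A) (w : List A) (hw : ¬ Proper w) : vspl (V t c) w = 0 := by
  have h := cut_zero c w none (fun p s => t ^ p.length * (pi' t p * phi t s)) (by
    intro p s hps
    by_cases hp : Proper p
    · by_cases hs : Proper s
      · have h1 := last_eq_head hp hs (by rw [← hps]; exact hw)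
        rw [Option.or_none, h1, sub_self, mul_zero]
      · rw [phi_improper t s hs]; ring
    · rw [pi_improper t p hp]; ring)
  have h2 : ind ((none : Option A) = some c) = 0 := ind_false (by simp)
  rw [h2, zero_mul, add_zero] at h
  rw [← h]
  apply vspl_congr
  intro u a v _
  unfold V
  simp only [List.length_append, List.length_cons, List.length_nil, zero_add]

lemma split_id (t : ℝ) (h0 : 0 < t) (h1 : t < 1) (c : A) (u : List A) (a : A) (v : List A)
    (hp : Proper (u ++ a :: v)) :
    t ^ (v.length + 1) * del t (fun u' => V t c u' a v) u + del t (fun v' => V t c u a v') v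
      = (1 - t ^ (u.length + v.length + 2)) * V t c u a v +
        ((t ^ (u.length + v.length) - t ^ (u.length + v.length + 1)) * SC t c u a v +
          EE t c u a v) := by
  have hav : Proper (a :: v) := Proper_append_right hp
  have hv : Proper v := Proper_tail hav
  have hu : Proper u := Proper_append_left hp
  have hua : Proper (u ++ [a]) := by
    have : u ++ a :: v = (u ++ [a]) ++ v := by simp
    rw [this] at hp
    exact Proper_append_left hp
  set D1 := del t (fun u' => pi' t (u' ++ [a])) u with hD1
  set D2 := del t (pi' t) u with hD2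
  set D3 := del t (fun v' => pi' t (a :: v')) v with hD3
  have e1 : t * D1 + pi' t u = (1 - t ^ (u.length + 2)) * pi' t (u ++ [a]) := by
    have h := pi_rec t h0 h1 (u ++ [a]) hua (by simp)
    rw [del_append, del_cons] at h
    simp only [List.length_append, List.length_cons, List.length_nil, zero_add, pow_one, pow_zero,
      one_mul, del_nil, add_zero, List.append_nil] at h
    rw [hD1]
    linarith
  have e3 : t ^ v.length * pi' t v + D3 = (1 - t ^ (v.length + 2)) * pi' t (a :: v) := by
    have h := pi_rec t h0 h1 (a :: v) hav (by simp)
    rw [del_cons] at h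
    simp only [List.length_cons] at h
    rw [hD3]
    linarith
  have e4 : del t (phi t) v = (1 - t ^ v.length) * phi t v := (phi_rec t h0 h1 v hv).symm
  have f1 : t * del t (fun u' => V t c u' a v) u = ind (a = c) *
      (t ^ (u.length + 1) * phi t v * D1 - t ^ u.length * phi t (a :: v) * D2) := by
    rw [← del_mul]
    have : del t (fun u' => t * V t c u' a v) u = del t (fun u' =>
        (ind (a = c) * (t ^ (u.length + 1) * phi t v)) * pi' t (u' ++ [a]) +
        (-(ind (a = c) * (t ^ u.length * phi t (a :: v)))) * pi' t u') u := by
      apply del_congr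
      intro u' hu'
      unfold V
      rw [← hu']
      ring
    rw [this, del_add, del_mul, del_mul]
    rw [hD1, hD2]
    ring
  have f2 : del t (fun v' => V t c u a v') v = ind (a = c) *
      (t ^ (u.length + 1) * pi' t (u ++ [a]) * ((1 - t ^ v.length) * phi t v)
        - t ^ u.length * pi' t u * (1 - t ^ (v.length + 1)) * D3) := by
    have : del t (fun v' => V t c u a v') v = del t (fun v' =>
        (ind (a = c) * (t ^ (u.length + 1) * pi' t (u ++ [a]))) * phi t v' +
        (-(ind (a = c) * (t ^ u.length * pi' t u * (1 - t ^ (v.length + 1))))) * pi' t (a :: v')) v := by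
      apply del_congr
      intro v' hv'
      unfold V
      rw [phi_eq_pi t h0 h1 (a :: v')]
      simp only [List.length_cons]
      rw [hv']
      ring
    rw [this, del_add, del_mul, del_mul, e4, hD3]
    ring
  have g1 : phi t v = (1 - t ^ (v.length + 1)) * pi' t v := phi_eq_pi t h0 h1 v
  have g2 : phi t (a :: v) = (1 - t ^ (v.length + 2)) * pi' t (a :: v) := phi_eq_pi t h0 h1 _
  have g3 : phi t (u ++ [a]) = (1 - t ^ (u.length + 2)) * pi' t (u ++ [a]) := by
    have := phi_eq_pi t h0 h1 (u ++ [a])
    simpa using this
  have g4 : phi t u = (1 - t ^ (u.length + 1)) * pi' t u := phi_eq_pi t h0 h1 u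
  have f1' : t ^ (v.length + 1) * del t (fun u' => V t c u' a v) u = t ^ v.length *
      (ind (a = c) * (t ^ (u.length + 1) * phi t v * D1 - t ^ u.length * phi t (a :: v) * D2)) := by
    rw [← f1]; ring
  rw [f1', f2]
  have hD3' : D3 = (1 - t ^ (v.length + 2)) * pi' t (a :: v) - t ^ v.length * pi' t v := by
    linarith
  have hD1' : t ^ (u.length + 1) * D1 = t ^ u.length *
      ((1 - t ^ (u.length + 2)) * pi' t (u ++ [a]) - pi' t u) := by
    rw [← e1]; ring
  cases u with
  | nil =>
    have hD2' : D2 = 0 := by rw [hD2]; rfl
    have hpn : pi' t ([] : List A) * (1 - t) = 1 := by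
      rw [pi_nil]
      have : (1 : ℝ) - t ≠ 0 := by linarith
      field_simp
    unfold V SC EE
    rw [hD2', hD3', g2, g3, g4, g1]
    simp only [List.length_nil, zero_add, pow_zero, pow_one, List.nil_append] at hD1' ⊢
    linear_combination (ind (a = c) * t ^ v.length * ((1 - t ^ (v.length + 1)) * pi' t v)) * hD1'
      + (ind (a = c) * (t ^ v.length * (1 - t ^ (v.length + 2)) * pi' t (a :: v))) * hpn
  | cons b u =>
    have hD2' : D2 = (1 - t ^ ((b :: u).length + 1)) * pi' t (b :: u) := by
      rw [hD2]; exact (pi_rec t h0 h1 (b :: u) hu (by simp)).symm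
    unfold V SC EE
    rw [hD2', hD3', g2, g3, g4, g1]
    generalize (b :: u).length = n at *
    linear_combination (ind (a = c) * t ^ v.length * ((1 - t ^ (v.length + 1)) * pi' t v)) * hD1'

lemma del_B (hSC : TaskSC) (t : ℝ) (h0 : 0 < t) (h1 : t < 1) (c d : A) (w : List A)
    (hp : Proper (d :: w)) :
    del t (fun v => vspl (V t c) v) (d :: w) = (1 - t ^ (w.length + 2)) * (vspl (V t c) (d :: w) +
      ind (d = c) * (t ^ w.length * pi' t (d :: w))) := by
  have e : del t (fun v => vspl (V t c) v) (d :: w) =
      vspl (fun u a v => (1 - t ^ (w.length + 2)) * V t c u a v +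
        ((t ^ w.length - t ^ (w.length + 1)) * SC t c u a v + EE t c u a v)) (d :: w) := by
    rw [del_vspl]
    apply vspl_congr
    intro u a v hw
    have hl : w.length = u.length + v.length := by
      have := congrArg List.length hw
      simp only [List.length_append, List.length_cons] at this
      omega
    rw [hw] at hp
    rw [hl]
    exact split_id t h0 h1 c u a v hp
  have hE : vspl (EE t c) (d :: w) =
      ind (d = c) * ((1 - t ^ (w.length + 2)) * (t ^ w.length * pi' t (d :: w))) := by
    rw [vspl_cons]
    have : vspl (fun u a v => EE t c (d :: u) a v) w = 0 := by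
      rw [← vspl_zero w]
      rfl
    rw [this, add_zero]
    rfl
  have hS : vspl (SC t c) (d :: w) = 0 := hSC A t h0 h1 c (d :: w)
  rw [e, vspl_add, vspl_mul, vspl_add, vspl_mul]
  have hS' : vspl (fun u a v => SC t c u a v) (d :: w) = 0 := hS
  have hE' : vspl (fun u a v => EE t c u a v) (d :: w) =
      ind (d = c) * ((1 - t ^ (w.length + 2)) * (t ^ w.length * pi' t (d :: w))) := hE
  rw [hS', hE']
  have hV : vspl (fun u a v => V t c u a v) (d :: w) = vspl (V t c) (d :: w) := rfl
  rw [hV]
  ring

lemma del_pic (t : ℝ) (h0 : 0 < t) (h1 : t < 1) (c d : A) (w : List A) (hp : Proper (d :: w)) :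
    del t (fun v => pi' t (c :: v)) (d :: w) = phi t (c :: d :: w) - t ^ (w.length + 1) *
      pi' t (d :: w) + ind (d = c) * (t ^ w.length * (1 + t) * pi' t (d :: w)) := by
  by_cases hdc : d = c
  · subst hdc
    rw [ind_true rfl, del_cons]
    have h2 : del t (fun v => pi' t (d :: d :: v)) w = 0 := by
      rw [← del_zero t w]
      apply del_congr
      intro v _
      exact pi_improper t _ (fun h => h.1 rfl)
    rw [h2, phi_improper t (d :: d :: w) (fun h => h.1 rfl)]
    ring
  · have hcp : Proper (c :: d :: w) := ⟨fun h => hdc h.symm, hp⟩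
    have h := pi_rec t h0 h1 (c :: d :: w) hcp (by simp)
    rw [del_cons] at h
    rw [ind_false hdc, phi_eq_pi t h0 h1 (c :: d :: w), h]
    simp only [List.length_cons]
    ring

theorem main (hSC : TaskSC) (t : ℝ) (h0 : 0 < t) (h1 : t < 1) (c : A) :
    ∀ (n : ℕ) (w : List A), w.length = n →
      (1 + t) * vspl (V t c) w = phi t (c :: w) - phi t w / (1 - t) := by
  intro n
  induction n with
  | zero =>
    intro w hw
    have hw' : w = [] := List.length_eq_zero_iff.1 hw
    subst hw'
    have h := phi_rec t h0 h1 [c] trivial
    rw [del_cons] at h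
    simp only [List.length_cons, List.length_nil, zero_add, pow_one, pow_zero, one_mul, phi_nil,
      del_nil, add_zero] at h
    have h2 : (1 : ℝ) - t ≠ 0 := by linarith
    rw [vspl_nil, phi_nil, mul_zero]
    field_simp
    linarith
  | succ L ih =>
    intro w hw
    cases w with
    | nil => simp at hw
    | cons d w =>
      have hwL : w.length = L := by simpa using hw
      by_cases hp : Proper (d :: w)
      swap
      · rw [improper_zero t c _ hp, phi_improper t (d :: w) hp,
          phi_improper t (c :: d :: w) (fun h => hp h.2)]
        ring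
      have h2 : (1 : ℝ) - t ≠ 0 := by linarith
      have e1 := del_B hSC t h0 h1 c d w hp
      have e2 := del_pic t h0 h1 c d w hp
      have e3 : del t (phi t) (d :: w) = (1 - t ^ (w.length + 1)) * phi t (d :: w) :=
        (phi_rec t h0 h1 (d :: w) hp).symm
      have e4 : (1 + t) * del t (fun v => vspl (V t c) v) (d :: w) =
          (1 - t ^ (w.length + 2)) * del t (fun v => pi' t (c :: v)) (d :: w) +
          (-(1 / (1 - t))) * del t (phi t) (d :: w) := by
        rw [← del_mul, ← del_mul, ← del_mul, ← del_add]
        apply del_congr
        intro v hv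
        have hvL : v.length = w.length := by simpa using hv
        rw [ih v (by rw [hvL, hwL]), phi_eq_pi t h0 h1 (c :: v)]
        simp only [List.length_cons]
        rw [hvL]
        ring
      rw [e1, e2, e3] at e4
      have e5 : phi t (d :: w) = (1 - t ^ (w.length + 2)) * pi' t (d :: w) :=
        phi_eq_pi t h0 h1 (d :: w)
      have hne := pow_ne t h0 h1 (w.length + 2) (by omega)
      apply mul_left_cancel₀ hne
      rw [e5] at e4 ⊢
      field_simp at e4 ⊢
      linear_combination e4

theorem taskN3r : H187CC.TaskN3r := by
  intro hSC A t h0 h1 c w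
  exact main hSC t h0 h1 c w.length w rfl

end Pool.Agent.H393R3.CC
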